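import Pool.Agent.V11328.B7.Count

/-! Edge marginals of uniform connected spanning subgraphs need not increase with the excess. -/

open Finset

namespace Pool.Agent.Results.MP_7fb2f0_pr.Decrease

open Pool.Agent.V11328.B7

open Classical in
/-- The edge sets of the connected spanning subgraphs of `G` of excess `k`, that is, with exactly
`|V| + k` edges. -/
noncomputable def connSub {V : Type} [Fintype V] (G : SimpleGraph V) (k : ℤ) :
    Finset (Finset (Sym2 V)) :=
  univ.filter (fun H => (H : Set (Sym2 V)) ⊆ G.edgeSet ∧ (#H : ℤ) = Fintype.card V + k ∧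
    (SimpleGraph.fromEdgeSet (H : Set (Sym2 V))).Connected)

open Classical in
/-- The members of `connSub G k` that contain the edge `e`. -/
noncomputable def connSubWith {V : Type} [Fintype V] (G : SimpleGraph V) (e : Sym2 V) (k : ℤ) :
    Finset (Finset (Sym2 V)) :=
  (connSub G k).filter (fun H => e ∈ H)

/-- The probability that the edge `e` belongs to a uniform connected spanning subgraph of
excess `k`. -/
noncomputable def marg {V : Type} [Fintype V] (G : SimpleGraph V) (e : Sym2 V) (k : ℤ) : ℚ :=
  (#(connSubWith G e k) : ℚ) / #(connSub G k)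

/-- Edges of three copies of the complete graph on four vertices minus an edge, placed in a row. -/
def rest : List Pr := [(8, 9), (7, 9), (7, 8), (6, 8), (6, 7), (5, 6), (4, 6), (4, 5), (3, 5),
  (3, 4), (2, 3), (1, 3), (1, 2), (0, 2), (0, 1)]

/-- The edge closing the cycle. -/
def e0 : Sym2 (Fin 10) := s(0, 9)

/-- The graph: the row of three blocks closed up by the edge `e0`. -/
def G : SimpleGraph (Fin 10) :=
  SimpleGraph.fromEdgeSet ((insert e0 (es rest) : Finset (Sym2 (Fin 10))) : Set (Sym2 (Fin 10)))

lemma rest_ne : ∀ q ∈ rest, q.1 ≠ q.2 := by decide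

lemma rest_nodup : (rest.map (fun q : Pr => s(q.1, q.2))).Nodup := by decide

lemma e0_notMem : e0 ∉ es rest := by decide

lemma masks : rest.map mask = [768, 640, 384, 320, 192, 96, 80, 48, 40, 24, 12, 10, 6, 5, 3] := by
  decide

lemma mask_e0 : mask ((0, 9) : Pr) = 513 := by decide

set_option maxRecDepth 100000 in
lemma c1 : cntM [768, 640, 384, 320, 192, 96, 80, 48, 40, 24, 12, 10, 6, 5, 3] 9 [] = 512 := by
  decide +kernel

set_option maxRecDepth 100000 in
lemma c2 : cntM [768, 640, 384, 320, 192, 96, 80, 48, 40, 24, 12, 10, 6, 5, 3] 8 [513] = 1536 := by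
  decide +kernel

set_option maxRecDepth 100000 in
lemma c3 : cntM [768, 640, 384, 320, 192, 96, 80, 48, 40, 24, 12, 10, 6, 5, 3] 10 [] = 960 := by
  decide +kernel

set_option maxRecDepth 100000 in
lemma c4 : cntM [768, 640, 384, 320, 192, 96, 80, 48, 40, 24, 12, 10, 6, 5, 3] 9 [513] = 2816 := by
  decide +kernel

lemma G_edges : G.edgeSet = ((insert e0 (es rest) : Finset (Sym2 (Fin 10))) :
    Set (Sym2 (Fin 10))) := by
  rw [G, SimpleGraph.edgeSet_fromEdgeSet]
  have : Disjoint ((insert e0 (es rest) : Finset (Sym2 (Fin 10))) : Set (Sym2 (Fin 10)))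
      Sym2.diagSet := by
    rw [Set.disjoint_left]
    intro e he hd
    rw [mem_coe, mem_insert] at he
    rw [Sym2.mem_diagSet] at hd
    rcases he with rfl | he
    · rw [e0, Sym2.mk_isDiag_iff] at hd
      exact absurd hd (by decide)
    · rw [es, List.mem_toFinset, List.mem_map] at he
      obtain ⟨q, hq, rfl⟩ := he
      rw [Sym2.mk_isDiag_iff] at hd
      exact rest_ne q hq hd
  exact this.sdiff_eq_left

open Classical in
/-- Connected spanning subgraphs containing `e0`. -/
lemma card_with (j : ℕ) (k : ℤ) (hj : (j : ℤ) + 1 = 10 + k) :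
    #((connSub G k).filter (fun H => e0 ∈ H)) = cntM (rest.map mask) j [513] := by
  have h1 := cntM_eq rest rest_nodup j [((0, 9) : Pr)] rest_ne (by decide)
  have h2 : ([((0, 9) : Pr)] : List Pr).map mask = [513] := by rw [List.map_singleton, mask_e0]
  rw [h2] at h1
  rw [h1]
  symm
  refine Finset.card_bij (fun T _ => insert e0 T) ?_ ?_ ?_
  · intro T hT
    simp only [mem_filter, mem_powersetCard] at hT
    obtain ⟨⟨hT1, hT2⟩, hT3⟩ := hT
    have hnot : e0 ∉ T := fun h => e0_notMem (hT1 h)
    simp only [connSub, mem_filter, mem_univ, true_and, mem_insert_self, and_true]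
    refine ⟨?_, ?_, ?_⟩
    · rw [G_edges]
      exact_mod_cast insert_subset_insert e0 hT1
    · rw [card_insert_of_notMem hnot, hT2, Fintype.card_fin]
      push_cast
      linarith
    · have : T ∪ es [((0, 9) : Pr)] = insert e0 T := by
        simp [es, e0]
      rwa [this] at hT3
  · intro T hT T' hT' hTT
    simp only [mem_filter, mem_powersetCard] at hT hT'
    have h3 : e0 ∉ T := fun h => e0_notMem (hT.1.1 h)
    have h4 : e0 ∉ T' := fun h => e0_notMem (hT'.1.1 h)
    rw [← erase_insert h3, ← erase_insert h4]
    exact congrArg (fun S => Finset.erase S e0) hTT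
  · intro H hH
    simp only [connSub, mem_filter, mem_univ, true_and] at hH
    obtain ⟨⟨h3, h4, h5⟩, h6⟩ := hH
    rw [G_edges] at h3
    have h3' : H ⊆ insert e0 (es rest) := by exact_mod_cast h3
    refine ⟨H.erase e0, ?_, insert_erase h6⟩
    simp only [mem_filter, mem_powersetCard]
    refine ⟨⟨?_, ?_⟩, ?_⟩
    · intro f hf
      rw [mem_erase] at hf
      exact (mem_insert.1 (h3' hf.2)).resolve_left hf.1
    · rw [card_erase_of_mem h6]
      rw [Fintype.card_fin] at h4
      have : 0 < #H := card_pos.2 ⟨_, h6⟩
      push_cast at h4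
      omega
    · have : H.erase e0 ∪ es [((0, 9) : Pr)] = H := by
        have h7 : es [((0, 9) : Pr)] = {e0} := by simp [es, e0]
        rw [h7, union_comm, ← insert_eq, insert_erase h6]
      rwa [this]

open Classical in
/-- Connected spanning subgraphs not containing `e0`. -/
lemma card_without (j : ℕ) (k : ℤ) (hj : (j : ℤ) = 10 + k) :
    #((connSub G k).filter (fun H => ¬ e0 ∈ H)) = cntM (rest.map mask) j [] := by
  have h1 := cntM_eq rest rest_nodup j [] rest_ne (by simp)
  rw [List.map_nil] at h1
  rw [h1]
  congr 1
  ext H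
  have hes : es [] = ∅ := rfl
  rw [hes]
  simp only [connSub, mem_filter, mem_univ, true_and, mem_powersetCard, union_empty,
    Fintype.card_fin]
  constructor
  · rintro ⟨⟨h3, h4, h5⟩, h6⟩
    rw [G_edges] at h3
    have h3' : H ⊆ insert e0 (es rest) := by exact_mod_cast h3
    refine ⟨⟨?_, ?_⟩, h5⟩
    · intro f hf
      refine (mem_insert.1 (h3' hf)).resolve_left ?_
      rintro rfl
      exact h6 hf
    · push_cast at h4
      omega
  · rintro ⟨⟨h3, h4⟩, h5⟩
    refine ⟨⟨?_, ?_, h5⟩, fun h => e0_notMem (h3 h)⟩
    · rw [G_edges]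
      exact_mod_cast h3.trans (subset_insert _ _)
    · push_cast
      omega

open Classical in
lemma card_total (k : ℤ) : #(connSub G k) = #((connSub G k).filter (fun H => e0 ∈ H)) +
    #((connSub G k).filter (fun H => ¬ e0 ∈ H)) :=
  (Finset.card_filter_add_card_filter_not (fun H => e0 ∈ H)).symm

lemma with_eq (k : ℤ) : connSubWith G e0 k = (connSub G k).filter (fun H => e0 ∈ H) := by
  ext H
  simp only [connSubWith, mem_filter]

lemma marg_neg_one : marg G e0 (-1) = 3 / 4 := by
  rw [marg, with_eq, card_total, card_with 8 (-1) (by norm_num), card_without 9 (-1) (by norm_num), masks,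
    c1, c2]
  norm_num

lemma marg_zero : marg G e0 0 = 44 / 59 := by
  rw [marg, with_eq, card_total, card_with 9 0 (by norm_num), card_without 10 0 (by norm_num), masks,
    c3, c4]
  norm_num

lemma G_connected : G.Connected := by
  have h0 : ∀ v : Fin 10, G.Reachable 0 v := by
    have hadj : ∀ a b : Fin 10, a ≠ b → s(a, b) ∈ (insert e0 (es rest) : Finset (Sym2 (Fin 10))) →
        G.Reachable a b := by
      intro a b hab h
      apply SimpleGraph.Adj.reachable
      rw [G, SimpleGraph.fromEdgeSet_adj]
      exact ⟨by exact_mod_cast h, hab⟩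
    have h01 := hadj 0 1 (by decide) (by decide)
    have h02 := hadj 0 2 (by decide) (by decide)
    have h23 := hadj 2 3 (by decide) (by decide)
    have h34 := hadj 3 4 (by decide) (by decide)
    have h35 := hadj 3 5 (by decide) (by decide)
    have h56 := hadj 5 6 (by decide) (by decide)
    have h67 := hadj 6 7 (by decide) (by decide)
    have h68 := hadj 6 8 (by decide) (by decide)
    have h89 := hadj 8 9 (by decide) (by decide)
    have h03 := h02.trans h23
    have h06 := (h03.trans h35).trans h56
    intro v
    fin_cases v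
    · exact SimpleGraph.Reachable.refl _
    · exact h01
    · exact h02
    · exact h03
    · exact h03.trans h34
    · exact h03.trans h35
    · exact h06
    · exact h06.trans h67
    · exact h06.trans h68
    · exact (h06.trans h68).trans h89
  exact { preconnected := fun u v => (h0 u).symm.trans (h0 v) }

/-- A connected graph on 10 vertices with 16 edges and an edge `e` whose probability of belonging
to a uniform spanning tree, `3/4`, is larger than its probability `44/59` of belonging to a uniform
connected spanning unicyclic subgraph. -/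
theorem result :
    ∃ (G : SimpleGraph (Fin 10)) (e : Sym2 (Fin 10)), G.Connected ∧ e ∈ G.edgeSet ∧
      G.edgeSet.ncard = 16 ∧ marg G e (-1) = 3 / 4 ∧ marg G e 0 = 44 / 59 ∧
      marg G e 0 < marg G e (-1) := by
  refine ⟨G, e0, G_connected, ?_, ?_, marg_neg_one, marg_zero, ?_⟩
  · rw [G_edges]
    exact_mod_cast mem_insert_self e0 (es rest)
  · rw [G_edges, Set.ncard_coe_finset]
    decide
  · rw [marg_neg_one, marg_zero]
    norm_num

end Pool.Agent.Results.MP_7fb2f0_pr.Decrease
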